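import Pool.Agent.H.MP_e848aa_gt.B

set_option autoImplicit false

namespace Pool.Agent.Results.MP_17359d_gt.FreeSet

open Set Cardinal Pool.Agent.H.MP_e848aa_gt

universe u

def DT (X : Type*) [TopologicalSpace X] : Prop :=
  ∀ 𝒰 : Set (Set X), (∀ U ∈ 𝒰, IsOpen U) → ⋃₀ 𝒰 = Set.univ →
    ∃ 𝒱 : ℕ → Set (Set X), (∀ n, (∀ V ∈ 𝒱 n, IsOpen V ∧ ∃ U ∈ 𝒰, V ⊆ U) ∧ ⋃₀ 𝒱 n = Set.univ) ∧
      ∀ x, ∃ n, {V | V ∈ 𝒱 n ∧ x ∈ V}.Countable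

theorem root {ι α : Type*} (S : Set α) (p : α → ι) (v : α → Finset ι) : ∃ D : Set ι, D.Countable ∧
    (p '' S ⊆ D ∨ ∀ Q : Set ι, Q.Countable → ∃ a ∈ S, p a ∉ Q ∧ ∀ b ∈ v a, b ∈ Q → b ∈ D) := by
  classical
  by_contra h
  push Not at h
  choose Q q1 q2 using fun r : Finset ι => (h r r.countable_toSet).2
  obtain ⟨H, H1, -, H3, -⟩ := hull Q q1
  obtain ⟨_, ⟨a, a1, rfl⟩, a2⟩ := not_subset.1 (h _ (H1 ∅ countable_empty)).1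
  have h1 := H3 ∅ ((v a).filter (· ∈ H ∅)) fun q hq => (Finset.mem_filter.1 hq).2
  obtain ⟨b, b1, b2, b3⟩ := q2 _ a a1 fun h2 => a2 (h1 h2)
  exact b3 (Finset.mem_filter.2 ⟨b1, h1 b2⟩)

theorem multi {ι α : Type*} (S : ℕ → Set α) (p : ℕ → α → ι) (v : ℕ → α → Finset ι) {R : Set ι}
    (hR : R.Countable) (h0 : ∀ n, ∀ a ∈ S n, p n a ∉ v n a) (h : ∀ n, ∀ Q : Set ι, Q.Countable →
      ∃ a ∈ S n, p n a ∉ Q ∧ ∀ b ∈ v n a, b ∈ Q → b ∈ R) :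
    ∃ B : Set ι, ∀ n, ¬ {q | ∃ a ∈ S n, p n a = q ∧ q ∈ B ∧ ∀ b ∈ v n a, b ∉ B}.Countable := by
  obtain ⟨I, _, _, i1, i2⟩ : ∃ (I : Type) (_ : LinearOrder I) (_ : WellFoundedLT I),
      #I = aleph 1 ∧ ∀ a : I, (Iio a).Countable := by
    refine ⟨(aleph 1).ord.ToType, inferInstance, inferInstance, by simp, fun a => ?_⟩
    have h : #(Iio a) < aleph 1 := by simpa using mk_Iio_lt a
    rw [← le_aleph0_iff_set_countable]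
    exact Order.lt_succ_iff.1 (h.trans_eq succ_aleph0.symm)
  obtain ⟨e⟩ : Nonempty (I ≃ I × ℕ) := by
    rw [← Cardinal.eq]; simp [i1, aleph0_lt_aleph_one.le]
  choose F f1 f2 f3 using fun (ξ : I) (g : Iio ξ → α) => h (e ξ).2
    (R ∪ ⋃ η : Iio ξ, insert (p (e η).2 (g η)) (v (e η).2 (g η))) (hR.union (by
      have := (i2 ξ).to_subtype
      exact countable_iUnion fun η => (Finset.countable_toSet _).insert _))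
  obtain ⟨g, hg⟩ : ∃ g : I → α, ∀ ξ, g ξ = F ξ fun η => g η :=
    ⟨wellFounded_lt.fix fun ξ r => F ξ fun η => r η η.2, fun ξ => wellFounded_lt.fix_eq _ ξ⟩
  have g1 : ∀ ξ, g ξ ∈ S (e ξ).2 := fun ξ => hg ξ ▸ f1 _ _
  have g2 : ∀ ξ, p (e ξ).2 (g ξ) ∉ R ∪ ⋃ η : Iio ξ,
    insert (p (e η).2 (g η)) (v (e η).2 (g η) : Set ι) := fun ξ => by rw [hg ξ]; exact f2 _ _
  have g3 : ∀ ξ, ∀ b ∈ v (e ξ).2 (g ξ), b ∈ R ∪ ⋃ η : Iio ξ,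
    insert (p (e η).2 (g η)) (v (e η).2 (g η) : Set ι) → b ∈ R := fun ξ => by
      rw [hg ξ]; exact f3 _ _
  have g4 : Function.Injective fun ξ => p (e ξ).2 (g ξ) := fun η ξ h => by
    rcases lt_trichotomy η ξ with h1 | h1 | h1
    · exact (g2 ξ (Or.inr (mem_iUnion.2 ⟨⟨η, h1⟩, Or.inl h.symm⟩))).elim
    · exact h1
    · exact (g2 η (Or.inr (mem_iUnion.2 ⟨⟨ξ, h1⟩, Or.inl h⟩))).elim
  refine ⟨range fun ξ => p (e ξ).2 (g ξ), fun n h1 => ?_⟩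
  have h2 : (Set.univ : Set I).Countable := (h1.preimage (g4.comp (e.symm.injective.comp
    (Prod.mk_left_injective n)))).mono fun ξ _ => by
      refine ⟨g (e.symm (ξ, n)), by simpa using g1 (e.symm (ξ, n)), by simp, ⟨_, rfl⟩, ?_⟩
      rintro _ hb ⟨η, rfl⟩
      replace hb : p (e η).2 (g η) ∈ v (e (e.symm (ξ, n))).2 (g (e.symm (ξ, n))) := by
        simpa using hb
      rcases lt_trichotomy η (e.symm (ξ, n)) with h2 | h2 | h2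
      · exact g2 η (Or.inl (g3 _ _ hb (Or.inr (mem_iUnion.2 ⟨⟨η, h2⟩, Or.inl rfl⟩))))
      · exact h0 _ _ (g1 η) (h2 ▸ hb)
      · exact g2 η (Or.inr (mem_iUnion.2 ⟨⟨_, h2⟩, Or.inr hb⟩))
  rw [← le_aleph0_iff_set_countable, mk_univ, i1] at h2
  exact h2.not_gt aleph0_lt_aleph_one

theorem notDT {κ : Type u} (hκ : Fr κ) : ¬ DT (Y κ) := by
  classical
  intro hY
  obtain ⟨c0, c1, -⟩ := hκ (fun _ => ∅) fun _ => countable_empty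
  obtain ⟨𝒱, v1, v2⟩ := hY (range fun p : κ × ℕ => {y | M y.1 → p ∈ y.1.C}) (by
    rintro _ ⟨p, rfl⟩ y hy h
    exact ⟨{p}, fun z hz _ => (((φ_iff h).1 hz).1 p (by simp)).2 (hy h)⟩)
    (eq_univ_of_forall fun y => by
      by_cases h : M y.1
      · obtain ⟨p, hp⟩ := h.1.1.nonempty
        exact ⟨_, ⟨p, rfl⟩, fun _ => hp⟩
      · exact ⟨_, ⟨(c1.nonempty.some, 0), rfl⟩, fun h' => absurd h' h⟩)
  have h0 : ∀ n (V : 𝒱 n), ∃ p : κ × ℕ, ∀ y ∈ V.1, M y.1 → p ∈ y.1.C := fun n V => by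
    obtain ⟨_, ⟨p, rfl⟩, h⟩ := ((v1 n).1 V V.2).2
    exact ⟨p, h⟩
  choose j hj using h0
  have h0 : ∀ n (y : {y : Y κ // M y.1}), ∃ V : 𝒱 n, y.1 ∈ V.1 ∧ ∃ E,
      ∀ z : Y κ, φ E z.1 = φ E y.1.1 → z ∈ V.1 := fun n y => by
    obtain ⟨V, h1, h2⟩ : y.1 ∈ ⋃₀ 𝒱 n := (v1 n).2 ▸ mem_univ _
    exact ⟨⟨V, h1⟩, h2, ((v1 n).1 V h1).1 _ h2 y.2⟩
  choose V hV E hE using h0
  obtain ⟨p, hp⟩ : ∃ p : ℕ → {y : Y κ // M y.1} → κ × ℕ, ∀ n y, p n y = j n (V n y) :=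
    ⟨_, fun _ _ => rfl⟩
  have p1 : ∀ n y, p n y ∈ y.1.1.C := fun n y => hp n y ▸ hj n _ _ (hV n y) y.2
  obtain ⟨v, hv⟩ : ∃ v : ℕ → {y : Y κ // M y.1} → Finset (κ × ℕ), ∀ n y a,
    a ∈ v n y ↔ a ∈ E n y ∧ a ∉ y.1.1.C := ⟨fun n y => (E n y).filter _, fun _ _ _ =>
      Finset.mem_filter⟩
  choose D d1 d2 using fun (n m : ℕ) (s F : Finset (κ × ℕ)) => root {y : {y : Y κ // M y.1} |
    ↑s = (y.1.1.C ∩ E n y) \ {p n y} ∧ ∀ a ∈ v n y, a.2 < m ∧ a ∉ F} (p n) (v n)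
  obtain ⟨c, c2, c3⟩ := hκ (fun s => Prod.fst '' ⋃ F ∈ {r : Finset (κ × ℕ) |
    ↑r ⊆ (s : Set κ) ×ˢ (Set.univ : Set ℕ)}, ⋃ n, ⋃ m, ⋃ r ∈ F.powerset, D n m r F) fun s =>
      ((cfin (s.countable_toSet.prod countable_univ)).biUnion fun F _ => countable_iUnion fun n =>
        countable_iUnion fun m => F.powerset.countable_toSet.biUnion fun r _ => d1 _ _ _ _).image _
  obtain ⟨e, e1, e2⟩ : ∃ e : ℕ → κ, Function.Injective e ∧ ∀ n, e n ∈ c :=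
    ⟨fun n => c2.natEmbedding c n, Subtype.val_injective.comp (c2.natEmbedding c).injective,
      fun n => (c2.natEmbedding c n).2⟩
  obtain ⟨y, hy⟩ : ∃ y : {y : Y κ // M y.1}, y.1.1.C = range fun n => (e n, n) :=
    ⟨⟨⟨⟨_, _, Subset.rfl, countable_range fun n => (e n, n)⟩, Or.inr rfl⟩,
      ⟨infinite_range_of_injective fun a b h => congrArg Prod.snd h, fun m =>
        ((finite_lt_nat m).image fun n => (e n, n)).subset (by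
          rintro _ ⟨⟨n, rfl⟩, h⟩; exact ⟨n, h, rfl⟩)⟩, by simp⟩, rfl⟩
  have y1 : y.1.1.C.Countable := hy ▸ countable_range _
  have h1 : ∀ n, ∃ R : Set (κ × ℕ), R.Countable ∧ ∀ Q : Set (κ × ℕ), Q.Countable →
      ∃ a ∈ {a : {y : Y κ // M y.1} | (a.1.1.C ∩ E n a) \ {p n a} ⊆ y.1.1.C ∧
        ∀ b ∈ v n a, b ∉ y.1.1.C}, p n a ∉ Q ∧ ∀ b ∈ v n a, b ∈ Q → b ∈ R := fun n => by
    obtain ⟨m, hm⟩ := ((E n y).image Prod.snd).exists_nat_subset_range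
    replace hm : ∀ a ∈ E n y, a.2 < m := fun a ha =>
      Finset.mem_range.1 (hm (Finset.mem_image_of_mem _ ha))
    obtain ⟨F, hF⟩ : ∃ F : Finset (κ × ℕ), ∀ a, a ∈ F ↔ (a ∈ y.1.1.C ∧ a.2 < m) ∧ a ≠ p n y :=
      ⟨((y.2.1.2 m).sdiff (t := {p n y})).toFinset, fun a => by simp⟩
    obtain ⟨r, hr⟩ : ∃ r : Finset (κ × ℕ), ↑r = (y.1.1.C ∩ E n y) \ {p n y} :=
      ⟨(((E n y).finite_toSet.inter_of_right _).sdiff).toFinset, Finite.coe_toFinset _⟩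
    have h1 : p n y ∉ D n m r F := fun h1 => by
      obtain ⟨k, hk⟩ : p n y ∈ range fun n => (e n, n) := hy ▸ p1 n y
      refine c3 (e k) (e2 k) (F.image Prod.fst) (fun a ha => ?_) ⟨p n y, mem_biUnion (x := F)
        (fun a ha => ⟨Finset.mem_coe.2 (Finset.mem_image_of_mem _ ha), trivial⟩)
        (mem_iUnion.2 ⟨n, mem_iUnion.2 ⟨m, mem_biUnion (Finset.mem_powerset.2 fun a ha =>
          (hF a).2 ⟨⟨(hr.subset ha).1.1, hm a (hr.subset ha).1.2⟩, (hr.subset ha).2⟩) h1⟩⟩),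
        by rw [← hk]⟩
      obtain ⟨b, b1, rfl⟩ := Finset.mem_image.1 ha
      obtain ⟨l, rfl⟩ : b ∈ range fun n => (e n, n) := hy ▸ ((hF b).1 b1).1.1
      exact ⟨e2 l, fun h2 => ((hF _).1 b1).2 (by rw [← hk, e1 h2])⟩
    refine ⟨D n m r F, d1 _ _ _ _, fun Q hQ => ?_⟩
    obtain ⟨a, ⟨a1, a2⟩, a3, a4⟩ := (d2 n m r F).resolve_left (fun h => h1 (h ⟨y, ⟨hr, fun a ha =>
      ⟨hm a ((hv _ _ _).1 ha).1, fun h2 => ((hv _ _ _).1 ha).2 ((hF a).1 h2).1.1⟩⟩, rfl⟩))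
      (Q ∪ y.1.1.C) (hQ.union y1)
    exact ⟨a, ⟨fun b hb => (hr.subset (a1.superset hb)).1.1, fun b hb h2 => (a2 b hb).2
      ((hF b).2 ⟨⟨h2, (a2 b hb).1⟩, fun h3 => h1 (h3 ▸ a4 b hb (Or.inr h2))⟩)⟩,
      fun h => a3 (Or.inl h), fun b hb h => a4 b hb (Or.inl h)⟩
  choose R r1 r2 using h1
  obtain ⟨B, hB⟩ := multi _ p v (countable_iUnion r1) (fun n a _ h => ((hv _ _ _).1 h).2 (p1 n a))
    fun n Q hQ => (r2 n Q hQ).imp fun a h => ⟨h.1, h.2.1, fun b hb h2 =>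
      mem_iUnion.2 ⟨n, h.2.2 b hb h2⟩⟩
  obtain ⟨n, hn⟩ := v2 (f ⟨y.1.1.C ∪ B, y.1.1.C, subset_union_left, y1⟩)
  refine hB n (((hn.preimage Subtype.val_injective).image (j n)).mono ?_)
  rintro _ ⟨a, ⟨a1, a2⟩, rfl, a3, a4⟩
  have h2 : ∀ b ∈ E n a, b ∈ y.1.1.C ∪ B → b ∈ a.1.1.C := fun b hb h2 => by_contra fun h3 =>
    h2.elim (a2 b ((hv _ _ _).2 ⟨hb, h3⟩)) (a4 b ((hv _ _ _).2 ⟨hb, h3⟩))
  refine ⟨V n a, ⟨(V n a).2, hE _ _ _ ((fφ _ _).trans ((φ_iff a.2).2 ⟨fun b hb => ⟨h2 b hb,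
    fun h4 => ?_⟩, (subsingleton_singleton (a := p n a)).anti fun b hb => by_contra fun h4 =>
      hb.1.2 (a1 ⟨⟨h2 b hb.2 hb.1.1, hb.2⟩, h4⟩)⟩))⟩, (hp n a).symm⟩
  by_cases h5 : b = p n a
  exacts [Or.inr (h5 ▸ a3), Or.inl (a1 ⟨⟨h4, hb⟩, h5⟩)]

theorem result {κ : Type u} (hκ : Fr κ) :
    ∃ (X Y : Type u) (_ : TopologicalSpace X) (_ : TopologicalSpace Y) (f : X → Y),
      T35Space X ∧ T35Space Y ∧ Perf f ∧ DT X ∧ ¬ DT Y :=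
  ⟨_, _, _, _, f, inferInstance, inferInstance, perf, fun 𝒰 h1 h2 => by
    obtain ⟨𝒱, v1, v2, v3⟩ := metaX 𝒰 h1 h2
    exact ⟨fun _ => 𝒱, fun _ => ⟨v1, v2⟩, fun x => ⟨0, v3 x⟩⟩, notDT hκ⟩

end Pool.Agent.Results.MP_17359d_gt.FreeSet
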